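import Pool.Agent.Lib.MP_d66af2_al.Basic
import Pool.Agent.Lib.MP_d66af2_al.Tree
import Pool.Agent.Lib.MP_d66af2_al.Rational

set_option autoImplicit false

/-!
# Finitely presented groups with finitely many conjugacy classes: reduction to simple groups

Every infinite finitely presented group with finitely many conjugacy classes has a normal subgroup
`M` of finite index and a normal subgroup `K` of `M` such that `S = M / K` is again infinite,
finitely presented, with finitely many conjugacy classes, and moreover `S` is simple, uniformly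
simple, has only bounded actions on trees (indeed on all `0`-hyperbolic spaces), has only
vanishing translation lengths, and is either of finite exponent or contains the additive group of
the rationals together with Baumslag-Solitar relations of arbitrarily divisible exponent.
Consequently Q1 is equivalent to the existence of such an `S`.
-/

namespace Pool.Agent.Results.MP_d66af2_al.SimpleReduction

open Filter Topology

/-- `h` is a product of at most `N` elements each of which is conjugate to `g` or to `g⁻¹`. -/
def ProdConj {S : Type} [Group S] (N : ℕ) (g h : S) : Prop :=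
  ∃ l : List S, l.length ≤ N ∧ (∀ x ∈ l, IsConj g x ∨ IsConj g⁻¹ x) ∧ l.prod = h

/-- The four point condition (`0`-hyperbolicity). It holds in every tree with its path metric and
in every real tree. -/
def FourPoint (X : Type) [PseudoMetricSpace X] : Prop :=
  ∀ x y z w : X, dist x y + dist z w ≤ max (dist x z + dist y w) (dist x w + dist y z)

/-- The properties of the simple group `S` in the reduction. -/
structure Restricted (S : Type) [Group S] : Prop where
  /-- `S` is infinite. -/
  infinite : Infinite S
  /-- `S` is simple. -/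
  simple : IsSimpleGroup S
  /-- `S` has finitely many conjugacy classes. -/
  classes : Finite (ConjClasses S)
  /-- `S` is uniformly simple: for one `N`, for every `g ≠ 1` every element of `S` is a product of
  at most `N` conjugates of `g` and `g⁻¹`. -/
  uniform : ∃ N : ℕ, ∀ g h : S, g ≠ 1 → ProdConj N g h
  /-- In every action of `S` by isometries all (stable) translation lengths are `0`. -/
  translation : ∀ (X : Type) [PseudoMetricSpace X] [MulAction S X] [IsIsometricSMul S X]
    (x : X) (g : S), Tendsto (fun n : ℕ => dist x (g ^ n • x) / n) atTop (𝓝 0)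
  /-- Every action of `S` by isometries on a `0`-hyperbolic space has bounded orbits. -/
  tree : ∀ (X : Type) [PseudoMetricSpace X] [MulAction S X] [IsIsometricSMul S X],
    FourPoint X → ∀ x : X, ∃ C : ℝ, ∀ g : S, dist x (g • x) ≤ C
  /-- Every quasimorphism on `S` is bounded. -/
  quasimorphism : ∀ φ : S → ℝ, (∃ D : ℝ, ∀ g h : S, |φ (g * h) - φ g - φ h| ≤ D) →
    ∃ B : ℝ, ∀ g : S, |φ g| ≤ B
  /-- Either `S` has finite exponent, or `S` contains a copy of the additive group of the
  rationals, and for every `N ≥ 1` there are `r` of infinite order, `t`, and `M ≥ 1` with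
  `t r t⁻¹ = r ^ (N M)`. -/
  exponent_or : (∃ e : ℕ, 0 < e ∧ ∀ g : S, g ^ e = 1) ∨
    ((∃ f : Multiplicative ℚ →* S, Function.Injective f) ∧
      ∀ N : ℕ, 0 < N → ∃ (r t : S) (M : ℕ), 0 < M ∧ (∀ n : ℕ, 0 < n → r ^ n ≠ 1) ∧
        t * r * t⁻¹ = r ^ (N * M))

theorem restricted_of (S : Type) [Group S] [Infinite S] [IsSimpleGroup S] [Finite (ConjClasses S)]
    [Group.FG S] : Restricted S where
  infinite := inferInstance
  simple := inferInstance
  classes := inferInstance
  uniform := Lib.MP_d66af2_al.uniformlySimple
  translation := fun X _ _ _ x g => Lib.MP_d66af2_al.tendsto_translation x g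
  tree := fun X _ _ _ hX x => Lib.MP_d66af2_al.bounded_orbit hX x
  quasimorphism := fun φ ⟨D, hD⟩ => Lib.MP_d66af2_al.quasimorphism_bounded φ D hD
  exponent_or := by
    by_cases h : ∀ g : S, ∃ n : ℕ, 0 < n ∧ g ^ n = 1
    · exact Or.inl (Lib.MP_d66af2_al.exponent_ne_zero_of_torsion h)
    · right
      push Not at h
      obtain ⟨g, hg⟩ := h
      refine ⟨Lib.MP_d66af2_al.exists_rat_embedding g hg, fun N hN => ?_⟩
      obtain ⟨r, hr, hdiv⟩ := Lib.MP_d66af2_al.exists_divisible g hg
      obtain ⟨M, hM, hc⟩ := hdiv N hN
      rw [isConj_iff] at hc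
      obtain ⟨t, ht⟩ := hc
      exact ⟨r, t, M, hM, hr, ht⟩

theorem result :
    (∀ (n : ℕ) (rels : Finset (FreeGroup (Fin n))),
      Infinite (PresentedGroup (rels : Set (FreeGroup (Fin n)))) →
      Finite (ConjClasses (PresentedGroup (rels : Set (FreeGroup (Fin n))))) →
      ∃ (M : Subgroup (PresentedGroup (rels : Set (FreeGroup (Fin n)))))
        (_ : M.Normal) (_ : M.FiniteIndex) (K : Subgroup M) (_ : K.Normal),
        (∀ L : Subgroup M, L.FiniteIndex → L = ⊤) ∧
        Restricted (M ⧸ K) ∧
        ∃ (m : ℕ) (rels' : Finset (FreeGroup (Fin m))),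
          Nonempty ((M ⧸ K) ≃* PresentedGroup (rels' : Set (FreeGroup (Fin m))))) ∧
    ((∃ n : ℕ, ∃ rels : Finset (FreeGroup (Fin n)),
      Infinite (PresentedGroup (rels : Set (FreeGroup (Fin n)))) ∧
      Finite (ConjClasses (PresentedGroup (rels : Set (FreeGroup (Fin n)))))) ↔
    ∃ n : ℕ, ∃ rels : Finset (FreeGroup (Fin n)),
      Restricted (PresentedGroup (rels : Set (FreeGroup (Fin n))))) := by
  have main : ∀ (n : ℕ) (rels : Finset (FreeGroup (Fin n))),
      Infinite (PresentedGroup (rels : Set (FreeGroup (Fin n)))) →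
      Finite (ConjClasses (PresentedGroup (rels : Set (FreeGroup (Fin n))))) →
      ∃ (M : Subgroup (PresentedGroup (rels : Set (FreeGroup (Fin n)))))
        (_ : M.Normal) (_ : M.FiniteIndex) (K : Subgroup M) (_ : K.Normal),
        (∀ L : Subgroup M, L.FiniteIndex → L = ⊤) ∧
        Restricted (M ⧸ K) ∧
        ∃ (m : ℕ) (rels' : Finset (FreeGroup (Fin m))),
          Nonempty ((M ⧸ K) ≃* PresentedGroup (rels' : Set (FreeGroup (Fin m)))) := by
    intro n rels hinf hcc
    set G := PresentedGroup (rels : Set (FreeGroup (Fin n))) with hG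
    have hfp : Group.IsFinitelyPresented G := inferInstance
    let M : Subgroup G := Lib.MP_d66af2_al.finRes G
    have hM : M.Normal := inferInstanceAs (Lib.MP_d66af2_al.finRes G).Normal
    have hMf : M.FiniteIndex := Lib.MP_d66af2_al.finRes_finiteIndex
    have hMcc : Finite (ConjClasses M) := Lib.MP_d66af2_al.finite_conj_of_finiteIndex M
    have hMfp : Group.IsFinitelyPresented M := Lib.MP_d66af2_al.fp_of_finiteIndex M
    have hMinf : Infinite M := by
      by_contra h
      rw [not_infinite_iff_finite] at h
      have : Finite G := (Subgroup.finite_iff_finite_and_finiteIndex M).2 ⟨h, hMf⟩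
      exact not_finite G
    have hMnt : Nontrivial M := inferInstance
    obtain ⟨K, hK, hKt, hKs⟩ := Lib.MP_d66af2_al.exists_simple_quotient (G := M)
    have hL : ∀ L : Subgroup M, L.FiniteIndex → L = ⊤ :=
      fun L h => Lib.MP_d66af2_al.finRes_no_finiteIndex L h
    have hScc : Finite (ConjClasses (M ⧸ K)) :=
      Lib.MP_d66af2_al.finite_conj_of_surj (QuotientGroup.mk' K) (QuotientGroup.mk'_surjective K)
    have hSfp : Group.IsFinitelyPresented (M ⧸ K) :=
      Group.IsFinitelyPresented.quotient K
        (Lib.MP_d66af2_al.normal_finitelyNormallyGenerated K)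
    have hSinf : Infinite (M ⧸ K) := by
      by_contra h
      rw [not_infinite_iff_finite] at h
      exact hKt (hL K Subgroup.finiteIndex_of_finite_quotient)
    have hfg : Group.FG (M ⧸ K) := by
      obtain ⟨k, φ, hφ, -⟩ := hSfp.out
      exact Group.fg_of_surjective hφ
    obtain ⟨m, s, hs, ⟨e⟩⟩ :=
      Group.IsFinitelyPresented.exists_mulEquiv_presentedGroup (G := M ⧸ K)
    refine ⟨M, hM, hMf, K, hK, hL, restricted_of (M ⧸ K), m, hs.toFinset, ?_⟩
    rw [hs.coe_toFinset]
    exact ⟨e⟩
  refine ⟨main, ?_, ?_⟩
  · rintro ⟨n, rels, hinf, hcc⟩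
    obtain ⟨M, hM, hMf, K, hK, -, hR, m, rels', ⟨e⟩⟩ := main n rels hinf hcc
    have h1 : Infinite (M ⧸ K) := hR.infinite
    have h2 : IsSimpleGroup (M ⧸ K) := hR.simple
    have h3 : Finite (ConjClasses (M ⧸ K)) := hR.classes
    have h4 : Infinite (PresentedGroup (rels' : Set (FreeGroup (Fin m)))) :=
      Infinite.of_injective e e.injective
    have h5 : IsSimpleGroup (PresentedGroup (rels' : Set (FreeGroup (Fin m)))) :=
      e.symm.isSimpleGroup
    have h6 : Finite (ConjClasses (PresentedGroup (rels' : Set (FreeGroup (Fin m))))) :=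
      Lib.MP_d66af2_al.finite_conj_of_surj (e : (M ⧸ K) →* _) e.surjective
    have h7 : Group.FG (PresentedGroup (rels' : Set (FreeGroup (Fin m)))) :=
      Group.fg_of_surjective (PresentedGroup.mk_surjective _)
    exact ⟨m, rels', restricted_of _⟩
  · rintro ⟨n, rels, hR⟩
    exact ⟨n, rels, hR.infinite, hR.classes⟩

end Pool.Agent.Results.MP_d66af2_al.SimpleReduction
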